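import Pool.Agent.U602.SQ.AutoMain

set_option autoImplicit false

/-! # Record prime gaps around `n` and `n²`, with `n` in an automatic set

Let `b ≥ 2` and let `A` be a `b`-automatic set of natural numbers (finite `b`-kernel), such that for
every `D ≥ 1` the set of the `n ∈ A` with `n ≡ 1 (mod D)` has positive upper Banach density. Then for
every `ε > 0` there is `κ > 0` such that for all large `X` at least `X ^ (1 - ε)` members `n ≤ X` of
`A` have no prime at distance at most `κ L(X)` from `n` or from `n²`, where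
`L(X) = log X (log₂ X)² log₄ X / (log₃ X)²` is the size of the largest gaps between primes that are
known to occur.

Examples: the sets of the `n` with prescribed residues of the numbers of occurrences of any blocks of
digits (Thue-Morse, Rudin-Shapiro). So no prime lies in `(n², n² + κ L(n)]` for many members `n` of
such a set: the length `(log n / log 2)²` of the question cannot be replaced by `κ L(n)`, even if `n`
is restricted to `A`.

Proof. In `MP_69be96_nt.AutomaticSets` (record gaps around `n` only) the primes dividing a number `D`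
which depends on the automaton are not used. For `n²` the small primes `p` must be used, with the
class `n ≡ 1 (mod p)`. So `n ≡ 1 (mod D)` is prescribed, and it has to be shown that the `n` of a
block which lead from one state to another and are `1` modulo `D` are well distributed modulo all
small `q` prime to `D`: the exponential sums at `h / q + j / D` are small, since the special
frequencies of the automaton have denominators dividing a power of `D`. The covering theorem is the
one of `NumberAndSquare` (project SQ of helper426 and others), in the form with a relative error of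
`MP_73869e_nt.WellDistributedSets`, with the primes dividing `D` left out (`U602/SQ/ArithD`). -/

namespace Pool.Agent.Results.MP_73869e_nt.AutomaticSets

open Filter

/-- `log x (log₂ x)² log₄ x / (log₃ x)²` -/
noncomputable def L (x : ℝ) : ℝ :=
  Real.log x * (Real.log (Real.log x)) ^ 2 * Real.log (Real.log (Real.log (Real.log x))) /
    (Real.log (Real.log (Real.log x))) ^ 2

theorem result (b : ℕ) (hb : 2 ≤ b) (A : Set ℕ)
    (hA : {B : Set ℕ | ∃ k r : ℕ, r < b ^ k ∧ B = {n : ℕ | b ^ k * n + r ∈ A}}.Finite)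
    (hd : ∀ D : ℕ, 1 ≤ D → ∃ c : ℝ, 0 < c ∧ ∀ H : ℕ, ∃ u v : ℕ, u + H ≤ v ∧
      c * ((v : ℝ) - u) ≤ ({n : ℕ | n ∈ A ∧ n ≡ 1 [MOD D] ∧ u < n ∧ n ≤ v}.ncard : ℝ))
    (ε : ℝ) (hε : 0 < ε) :
    ∃ κ : ℝ, 0 < κ ∧ ∃ X₀ : ℝ, ∀ X : ℝ, X₀ ≤ X →
      X ^ (1 - ε) ≤ ({n : ℕ | n ∈ A ∧ (n : ℝ) ≤ X ∧ ∀ q : ℕ, q.Prime →
        κ * L X < |(q : ℝ) - n| ∧ κ * L X < |(q : ℝ) - (n : ℝ) ^ 2|}.ncard : ℝ) := by
  classical
  obtain ⟨κ, hκ, h⟩ := Pool.Agent.U602.SQ.main_kernel_sq b hb A hA (by
    intro D hD
    obtain ⟨c, hc, hd'⟩ := hd D hD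
    refine ⟨c, hc, fun H => ?_⟩
    obtain ⟨u, v, huv, h⟩ := hd' H
    refine ⟨u, v, huv, h.trans (le_of_eq ?_)⟩
    rw [← Set.ncard_coe_finset]
    congr 2
    ext n
    simp only [Finset.coe_filter, Finset.mem_Ioc, Set.mem_ofPred_eq]
    have e1 : n ≡ 1 [MOD D] ↔ (D : ℤ) ∣ (n : ℤ) - 1 := by
      rw [Nat.ModEq.comm, Nat.modEq_iff_dvd]
      push_cast
      rfl
    rw [e1]
    tauto) ε hε
  obtain ⟨X₀, hX₀⟩ := eventually_atTop.1 h
  refine ⟨κ, hκ, max X₀ 0, fun X hX => ?_⟩
  have h1 := hX₀ X ((le_max_left _ _).trans hX)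
  have hX0 : 0 ≤ X := (le_max_right _ _).trans hX
  refine h1.trans (le_of_eq ?_)
  have hL : Pool.Agent.W147.PS.ff X = L X := rfl
  rw [hL, ← Set.ncard_coe_finset]
  congr 2
  ext n
  simp only [Finset.coe_filter, Finset.mem_range, Set.mem_ofPred_eq, Nat.lt_succ_iff,
    Nat.le_floor_iff hX0]
  tauto

end Pool.Agent.Results.MP_73869e_nt.AutomaticSets
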