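import Mathlib
import Pool.Agent.U746.GM.Sq2
import Pool.Agent.U746.LD.Tail

set_option autoImplicit false

/-!
# The number of chosen elements behind squares in Cramér's model: exact exponents

The problem asks for a prime in `(n², n² + (log₂ n)²]`, an interval of length `C (log n)²` with
`C = 1/(log 2)² = 2.08…`, for every large `n`, and `a(n)` is the number of these primes. We determine the
almost sure behaviour of the number `a_C(n)` of chosen integers in `(n², n² + C (log n)²]` in Cramér's model, and in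
all models with a nondecreasing sieve `T` that is smaller than every power of `log n` (the integers `m`
without prime factors `p ≤ T(m)` are chosen with probability `∏_{p ≤ T(m)} (1 - 1/p)⁻¹ / log m`).

The mean of `a_C(n)` is asymptotically `(C/2) log n`. Let `h(x) = 1 - x + x log x`; this function decreases from
`h(0) = 1` to `h(1) = 0` and increases from there on. For every `C > 0` we have, almost surely:

(1) for `0 ≤ x < 1`: if `(C/2) h(x) > 1` then `a_C(n) > x (C/2) log n` for all large `n`; if `(C/2) h(x) < 1`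
then the number of the `n ≤ N` with `a_C(n) ≤ x (C/2) log n` is `N^(1 - (C/2) h(x) + o(1))`.

(2) for `x > 1`: if `(C/2) h(x) > 1` then `a_C(n) < x (C/2) log n` for all large `n`; if `(C/2) h(x) < 1`
then the number of the `n ≤ N` with `a_C(n) ≥ x (C/2) log n` is `N^(1 - (C/2) h(x) + o(1))`.

So the lower and the upper limit of `a_C(n) / log n` are `x C/2` with the solutions `x` of `(C/2) h(x) = 1` on the
two sides of `1` (the lower one for `C > 2`). In particular the function `a(n)` of the problem satisfies: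

(3) almost surely `(log n)/154 < a(n) < 2.81 log n` for all large `n`, `a(n) < (log n)/144` for infinitely many
`n`, and `a(n) > 2.76 log n` for infinitely many `n`.

Sieves of the size of `log n` behave differently (the restriction to multiples `n` of a primorial):

(4) if `T(m) ≥ c log m` for large `m`, some `c > 0`, and `T(m) ≤ (log m)^(1 + o(1))`, then for every positive
`C < 4 e^(-γ) = 2.24…` almost surely `a_C(n) = 0` for infinitely many `n`; and `1/(log 2)² < 4 e^(-γ)`, so that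
almost surely `a(n) = 0` for infinitely many `n`.

Proof. The mean of `a_C(n)` by the fundamental lemma (library `Pool.Agent.U839.Sv.regular`); upper bounds for the
tails by Chernoff's method; lower bounds: the probability of exactly `K` chosen elements is at least
`∏ (1 - p_m)` times the elementary symmetric function `e_K` of the `p_m`, and
`e_K ≥ (Σ p_m - 2 δ K)^K / K!` if all `p_m ≤ δ` and `4 δ K ≤ Σ p_m`. The intervals are disjoint for large `n`, so that
the events are independent; the number of events that occur up to `N` is bounded from below by Chernoff's method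
again and from above by the convergence of a series of expectations. (4): let `t = θ log N` with small `θ`; for the
multiples `n` of `∏_{p ≤ t} p` in `(N, 2N]` only the `m` with `m - n²` free of primes up to `t` can be chosen behind
`n²`, and their number is given by the prime number theorem.
-/

open MeasureTheory ProbabilityTheory Filter Topology

namespace Pool.Agent.Results.MP_73869e_nt.CountsInRandomModels

open Classical in
/-- `∏_{p ≤ T(m)} (1 - 1/p)⁻¹` if `m` has no prime factor `p ≤ T(m)`, and `0` otherwise. -/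
noncomputable def weight (T : ℕ → ℕ) (m : ℕ) : ℝ :=
  if ∀ p, p.Prime → p ≤ T m → ¬ p ∣ m then
    ∏ p ∈ (Finset.Icc 1 (T m)).filter Nat.Prime, (1 - 1 / (p : ℝ))⁻¹ else 0

/-- The random model: `E m` is the event that `m` is chosen; these events are independent and have
probability `weight T m / log m` (if this is at most `1`, which is the case for all large `m` here). -/
structure Model {Ω : Type*} [MeasurableSpace Ω] (μ : Measure Ω) (T : ℕ → ℕ) (E : ℕ → Set Ω) : Prop where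
  meas : ∀ m, MeasurableSet (E m)
  indep : iIndepSet E μ
  law : ∀ m : ℕ, μ.real (E m) = min 1 (weight T m / Real.log m)

/-- `T` is nondecreasing and smaller than every power of `log n`. -/
def Small (T : ℕ → ℕ) : Prop :=
  Monotone T ∧ ∀ θ : ℝ, 0 < θ → ∀ᶠ n : ℕ in atTop, (T n : ℝ) ≤ (Real.log n) ^ θ

/-- `T` has the size of `log n`. -/
def Logarithmic (T : ℕ → ℕ) : Prop :=
  (∃ c : ℝ, 0 < c ∧ ∀ᶠ n : ℕ in atTop, c * Real.log n ≤ T n) ∧
    ∀ ε : ℝ, 0 < ε → ∀ᶠ n : ℕ in atTop, (T n : ℝ) ≤ (Real.log n) ^ (1 + ε)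

/-- the number of elements of `Q` in `(n², n² + C (log n)²]` -/
noncomputable def a (C : ℝ) (Q : Set ℕ) (n : ℕ) : ℕ :=
  Set.ncard {m | m ∈ Q ∧ n ^ 2 < m ∧ (m : ℝ) ≤ (n : ℝ) ^ 2 + C * (Real.log n) ^ 2}

/-- the function `a(n)` of the problem, with a set `Q` in place of the primes -/
noncomputable def a₂ (Q : Set ℕ) (n : ℕ) : ℕ :=
  Set.ncard {m | m ∈ Q ∧ n ^ 2 < m ∧ (m : ℝ) ≤ (n : ℝ) ^ 2 + (Real.logb 2 n) ^ 2}

/-- `h(x) = 1 - x + x log x` (where `0 log 0 = 0`) -/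
noncomputable def h (x : ℝ) : ℝ := 1 - x + x * Real.log x

/-- the number of the `n ≤ N` with `P n` -/
noncomputable def count (P : ℕ → Prop) (N : ℕ) : ℕ := Set.ncard {n | n ≤ N ∧ P n}

theorem a_eq {Ω : Type*} (E : ℕ → Set Ω) (ω : Ω) (C : ℝ) (n : ℕ) :
    a C {m | ω ∈ E m} n =
      (Pool.Agent.U746.LD.pat E (Pool.Agent.U746.GM.blk C n) ω).card := by
  classical
  unfold a Pool.Agent.U746.LD.pat
  rw [← Set.ncard_coe_finset]
  congr 1
  ext m
  rw [Finset.mem_coe, Finset.mem_filter, Pool.Agent.U746.GM.mem_blk]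
  simp only [Set.mem_setOf_eq]
  tauto

theorem a₂_eq (Q : Set ℕ) (n : ℕ) : a₂ Q n = a (1 / (Real.log 2) ^ 2) Q n := by
  have h1 : (Real.logb 2 n) ^ 2 = 1 / (Real.log 2) ^ 2 * (Real.log n) ^ 2 := by
    rw [Real.logb, div_pow]
    ring
  unfold a₂ a
  rw [h1]

theorem hyp {Ω : Type*} [MeasurableSpace Ω] {μ : Measure Ω} {T : ℕ → ℕ} {E : ℕ → Set Ω}
    (hT : Small T) (hE : Model μ T E) {C : ℝ} (hC : 0 < C) : Pool.Agent.U746.LD.Hyp μ E T C where
  meas := hE.meas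
  indep := hE.indep
  mono := hT.1
  small := hT.2
  law := hE.law
  pos := hC

theorem never_lt {Ω : Type*} [MeasurableSpace Ω] {μ : Measure Ω} [IsProbabilityMeasure μ]
    {T : ℕ → ℕ} {E : ℕ → Set Ω} (hT : Small T) (hE : Model μ T E) (C : ℝ) (hC : 0 < C) (x : ℝ)
    (hx0 : 0 ≤ x) (hx1 : x < 1) (hr : 1 < C / 2 * h x) :
    ∀ᵐ ω ∂μ, ∀ᶠ n : ℕ in atTop, x * (C / 2 * Real.log n) < (a C {m | ω ∈ E m} n : ℝ) := by
  filter_upwards [Pool.Agent.U746.LD.lt_never (hyp hT hE hC) x hx0 hx1 hr] with ω hω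
  filter_upwards [hω] with n hn
  unfold Pool.Agent.U746.LD.FL at hn
  rw [Set.mem_setOf_eq, not_le] at hn
  rw [a_eq]
  exact hn

theorem never_gt {Ω : Type*} [MeasurableSpace Ω] {μ : Measure Ω} [IsProbabilityMeasure μ]
    {T : ℕ → ℕ} {E : ℕ → Set Ω} (hT : Small T) (hE : Model μ T E) (C : ℝ) (hC : 0 < C) (x : ℝ)
    (hx1 : 1 < x) (hr : 1 < C / 2 * h x) :
    ∀ᵐ ω ∂μ, ∀ᶠ n : ℕ in atTop, (a C {m | ω ∈ E m} n : ℝ) < x * (C / 2 * Real.log n) := by
  filter_upwards [Pool.Agent.U746.LD.gt_never (hyp hT hE hC) x hx1 hr] with ω hω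
  filter_upwards [hω] with n hn
  unfold Pool.Agent.U746.LD.FG at hn
  rw [Set.mem_setOf_eq, not_le] at hn
  rw [a_eq]
  exact hn

theorem count_lt {Ω : Type*} (E : ℕ → Set Ω) (ω : Ω) (C x : ℝ) (N : ℕ) :
    count (fun n => (a C {m | ω ∈ E m} n : ℝ) ≤ x * (C / 2 * Real.log n)) N =
      Pool.Agent.U746.LD.num (Pool.Agent.U746.LD.FL E C x) ω N := by
  simp only [a_eq]
  rfl

theorem count_gt {Ω : Type*} (E : ℕ → Set Ω) (ω : Ω) (C x : ℝ) (N : ℕ) :
    count (fun n => x * (C / 2 * Real.log n) ≤ (a C {m | ω ∈ E m} n : ℝ)) N =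
      Pool.Agent.U746.LD.num (Pool.Agent.U746.LD.FG E C x) ω N := by
  simp only [a_eq]
  rfl

theorem C₂_pos : (0 : ℝ) < 1 / (Real.log 2) ^ 2 := by
  have := Real.log_two_gt_d9
  have h0 : 0 < Real.log 2 := by linarith
  positivity

theorem C₂_mul (y : ℝ) : 1 / (Real.log 2) ^ 2 / 2 * y = y / (2 * (Real.log 2) ^ 2) := by
  have := Real.log_two_gt_d9
  have h0 : 0 < Real.log 2 := by linarith
  field_simp

theorem C₂_lt (y : ℝ) (hy : (0.961 : ℝ) < y) : 1 < 1 / (Real.log 2) ^ 2 / 2 * y := by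
  have h1 := Pool.Agent.U746.LD.log2
  rw [C₂_mul, lt_div_iff₀ (by linarith)]
  linarith

theorem C₂_gt (y : ℝ) (hy : y < 0.9609) : 1 / (Real.log 2) ^ 2 / 2 * y < 1 := by
  have h1 := Pool.Agent.U746.LD.log2
  rw [C₂_mul, div_lt_iff₀ (by linarith)]
  linarith

theorem const_lt : 1 / (Real.log 2) ^ 2 < 4 * Real.exp (-Real.eulerMascheroniConstant) := by
  have h1 := Real.log_two_lt_d9
  have h2 := Real.log_two_gt_d9
  have h3 : 0 < Real.log 2 := by linarith
  have h5 : (0.48 : ℝ) < (Real.log 2) ^ 2 := by nlinarith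
  rw [div_lt_iff₀ (by positivity)]
  have hg := Pool.Agent.U839.Thin.gamma_bound
  have h6 : Real.exp (-(7 / 12 : ℝ)) < Real.exp (-Real.eulerMascheroniConstant) :=
    Real.exp_lt_exp.2 (by linarith)
  have h7 : (1 : ℝ) / 1.92 ≤ Real.exp (-(7 / 12 : ℝ)) := by
    rw [Real.exp_neg, one_div]
    apply inv_anti₀ (Real.exp_pos _)
    have h8 : Real.exp (7 / 12 : ℝ) ^ 12 ≤ (1.92 : ℝ) ^ 12 := by
      rw [← Real.exp_nat_mul]
      have h9 : ((12 : ℕ) : ℝ) * (7 / 12 : ℝ) = ((7 : ℕ) : ℝ) * 1 := by norm_num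
      rw [h9, Real.exp_nat_mul]
      calc Real.exp 1 ^ 7 ≤ (2.7182818286 : ℝ) ^ 7 :=
            pow_le_pow_left₀ (Real.exp_pos _).le Real.exp_one_lt_d9.le 7
        _ ≤ _ := by norm_num
    exact le_of_pow_le_pow_left₀ (by norm_num) (by norm_num) h8
  have h10 : (1 : ℝ) / 1.92 < Real.exp (-Real.eulerMascheroniConstant) := lt_of_le_of_lt h7 h6
  have h11 : 4 * (1 / 1.92 : ℝ) * 0.48 = 1 := by norm_num
  nlinarith [Real.exp_pos (-Real.eulerMascheroniConstant)]

/-- sieves of the size of `log n` -/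
theorem empty_io {Ω : Type*} [MeasurableSpace Ω] {μ : Measure Ω} [IsProbabilityMeasure μ]
    {T : ℕ → ℕ} {E : ℕ → Set Ω} (hT : Logarithmic T) (hE : Model μ T E) (C : ℝ) (hC : 0 < C)
    (hC2 : C < 4 * Real.exp (-Real.eulerMascheroniConstant)) :
    ∀ᵐ ω ∂μ, ∃ᶠ n : ℕ in atTop, a C {m | ω ∈ E m} n = 0 := by
  obtain ⟨⟨c, hc, h1⟩, h2⟩ := hT
  obtain ⟨n₀, hn₀⟩ := Pool.Agent.U746.GM.blk_disj C hC
  have h3 := Pool.Agent.U746.GM.gran_div (fun m => μ.real (E m)) T c hc h1 h2 hE.law C hC hC2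
  filter_upwards [Pool.Agent.U746.GM.io' hE.meas hE.indep (Pool.Agent.U746.GM.blk C) n₀ hn₀ h3]
    with ω hω
  rw [Nat.frequently_atTop_iff_infinite]
  refine hω.mono ?_
  intro n hn
  have h4 : ω ∈ Pool.Agent.U746.GM.NN E (Pool.Agent.U746.GM.blk C n) := hn
  rw [Pool.Agent.U746.GM.mem_NN] at h4
  show a C {m | ω ∈ E m} n = 0
  rw [a_eq, Finset.card_eq_zero]
  classical
  unfold Pool.Agent.U746.LD.pat
  rw [Finset.filter_eq_empty_iff]
  exact h4

/-- (1), (2), (3), (4). -/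
theorem result.{u} :
    (∀ T : ℕ → ℕ, Small T → ∀ (Ω : Type u) [MeasurableSpace Ω] (μ : Measure Ω)
      [IsProbabilityMeasure μ] (E : ℕ → Set Ω), Model μ T E →
    (∀ C : ℝ, 0 < C → ∀ x : ℝ, 0 ≤ x → x < 1 →
      (1 < C / 2 * h x → ∀ᵐ ω ∂μ, ∀ᶠ n : ℕ in atTop,
        x * (C / 2 * Real.log n) < (a C {m | ω ∈ E m} n : ℝ)) ∧
      (C / 2 * h x < 1 → ∀ᵐ ω ∂μ, ∀ ε : ℝ, 0 < ε → ∀ᶠ N : ℕ in atTop,
        (N : ℝ) ^ (1 - C / 2 * h x - ε) ≤
          (count (fun n => (a C {m | ω ∈ E m} n : ℝ) ≤ x * (C / 2 * Real.log n)) N : ℝ) ∧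
        (count (fun n => (a C {m | ω ∈ E m} n : ℝ) ≤ x * (C / 2 * Real.log n)) N : ℝ) ≤
          (N : ℝ) ^ (1 - C / 2 * h x + ε))) ∧
    (∀ C : ℝ, 0 < C → ∀ x : ℝ, 1 < x →
      (1 < C / 2 * h x → ∀ᵐ ω ∂μ, ∀ᶠ n : ℕ in atTop,
        (a C {m | ω ∈ E m} n : ℝ) < x * (C / 2 * Real.log n)) ∧
      (C / 2 * h x < 1 → ∀ᵐ ω ∂μ, ∀ ε : ℝ, 0 < ε → ∀ᶠ N : ℕ in atTop,
        (N : ℝ) ^ (1 - C / 2 * h x - ε) ≤
          (count (fun n => x * (C / 2 * Real.log n) ≤ (a C {m | ω ∈ E m} n : ℝ)) N : ℝ) ∧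
        (count (fun n => x * (C / 2 * Real.log n) ≤ (a C {m | ω ∈ E m} n : ℝ)) N : ℝ) ≤
          (N : ℝ) ^ (1 - C / 2 * h x + ε))) ∧
    (∀ᵐ ω ∂μ,
      (∀ᶠ n : ℕ in atTop, Real.log n / 154 < (a₂ {m | ω ∈ E m} n : ℝ) ∧
        (a₂ {m | ω ∈ E m} n : ℝ) < 2.81 * Real.log n) ∧
      (∃ᶠ n : ℕ in atTop, (a₂ {m | ω ∈ E m} n : ℝ) < Real.log n / 144) ∧
      (∃ᶠ n : ℕ in atTop, 2.76 * Real.log n < (a₂ {m | ω ∈ E m} n : ℝ)))) ∧
    (1 / (Real.log 2) ^ 2 < 4 * Real.exp (-Real.eulerMascheroniConstant) ∧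
      ∀ T : ℕ → ℕ, Logarithmic T → ∀ (Ω : Type u) [MeasurableSpace Ω] (μ : Measure Ω)
      [IsProbabilityMeasure μ] (E : ℕ → Set Ω), Model μ T E →
      (∀ C : ℝ, 0 < C → C < 4 * Real.exp (-Real.eulerMascheroniConstant) →
        ∀ᵐ ω ∂μ, ∃ᶠ n : ℕ in atTop, a C {m | ω ∈ E m} n = 0) ∧
      ∀ᵐ ω ∂μ, ∃ᶠ n : ℕ in atTop, a₂ {m | ω ∈ E m} n = 0) := by
  refine ⟨?_, const_lt, ?_⟩
  swap
  · intro T hT Ω _ μ _ E hE
    refine ⟨fun C hC hC2 => empty_io hT hE C hC hC2, ?_⟩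
    filter_upwards [empty_io hT hE _ C₂_pos const_lt] with ω hω
    refine hω.mono fun n hn => ?_
    rw [a₂_eq]
    exact hn
  intro T hT Ω _ μ _ E hE
  have hA : ∀ C : ℝ, 0 < C → ∀ x : ℝ, 0 ≤ x → x < 1 → C / 2 * h x < 1 →
      ∀ᵐ ω ∂μ, ∀ ε : ℝ, 0 < ε → ∀ᶠ N : ℕ in atTop,
        (N : ℝ) ^ (1 - C / 2 * h x - ε) ≤
          (count (fun n => (a C {m | ω ∈ E m} n : ℝ) ≤ x * (C / 2 * Real.log n)) N : ℝ) ∧
        (count (fun n => (a C {m | ω ∈ E m} n : ℝ) ≤ x * (C / 2 * Real.log n)) N : ℝ) ≤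
          (N : ℝ) ^ (1 - C / 2 * h x + ε) := by
    intro C hC x hx0 hx1 hr
    filter_upwards [Pool.Agent.U746.LD.lt_num (hyp hT hE hC) x hx0 hx1 hr] with ω hω
    intro ε hε
    filter_upwards [hω ε hε] with N hN
    rw [count_lt]
    exact hN
  have hB : ∀ C : ℝ, 0 < C → ∀ x : ℝ, 1 < x → C / 2 * h x < 1 →
      ∀ᵐ ω ∂μ, ∀ ε : ℝ, 0 < ε → ∀ᶠ N : ℕ in atTop,
        (N : ℝ) ^ (1 - C / 2 * h x - ε) ≤
          (count (fun n => x * (C / 2 * Real.log n) ≤ (a C {m | ω ∈ E m} n : ℝ)) N : ℝ) ∧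
        (count (fun n => x * (C / 2 * Real.log n) ≤ (a C {m | ω ∈ E m} n : ℝ)) N : ℝ) ≤
          (N : ℝ) ^ (1 - C / 2 * h x + ε) := by
    intro C hC x hx1 hr
    filter_upwards [Pool.Agent.U746.LD.gt_num (hyp hT hE hC) x hx1 hr] with ω hω
    intro ε hε
    filter_upwards [hω ε hε] with N hN
    rw [count_gt]
    exact hN
  refine ⟨fun C hC x hx0 hx1 => ⟨fun hr => never_lt hT hE C hC x hx0 hx1 hr, hA C hC x hx0 hx1⟩,
    fun C hC x hx1 => ⟨fun hr => never_gt hT hE C hC x hx1 hr, hB C hC x hx1⟩, ?_⟩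
  have hlog2 := Pool.Agent.U746.LD.log2
  have hC := C₂_pos
  have r1 := C₂_lt _ Pool.Agent.U746.LD.rate1
  have r2 := C₂_gt _ (lt_trans Pool.Agent.U746.LD.rate2 (by norm_num))
  have r3 := C₂_lt _ Pool.Agent.U746.LD.rate3
  have r4 := C₂_gt _ (lt_trans Pool.Agent.U746.LD.rate4 (by norm_num))
  have hlogn : ∀ᶠ n : ℕ in atTop, 0 < Real.log (n : ℝ) := by
    filter_upwards [eventually_gt_atTop 1] with n hn
    exact Real.log_pos (by exact_mod_cast hn)
  filter_upwards [never_lt hT hE _ hC (1 / 160) (by norm_num) (by norm_num) r1,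
    Pool.Agent.U746.LD.lt_num (hyp hT hE hC) (1 / 150) (by norm_num) (by norm_num) r2,
    never_gt hT hE _ hC 2.7 (by norm_num) r3,
    Pool.Agent.U746.LD.gt_num (hyp hT hE hC) 2.66 (by norm_num) r4] with ω g1 g2 g3 g4
  refine ⟨?_, ?_, ?_⟩
  · filter_upwards [g1, g3, hlogn] with n k1 k2 k3
    rw [a₂_eq]
    constructor
    · refine lt_of_le_of_lt ?_ k1
      rw [C₂_mul, mul_div_assoc', le_div_iff₀ (by linarith)]
      nlinarith
    · refine lt_of_lt_of_le k2 ?_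
      rw [C₂_mul, mul_div_assoc', div_le_iff₀ (by linarith)]
      have h5 : (2.7 : ℝ) ≤ 2.81 * (2 * (Real.log 2) ^ 2) := by
        have h6 := Real.log_two_gt_d9
        nlinarith
      nlinarith
  · have h1 := Pool.Agent.U746.LD.io_of_num _ ω _
      (by linarith : (0 : ℝ) < (1 - 1 / (Real.log 2) ^ 2 / 2 * Pool.Agent.U746.LD.rate (1 / 150)) / 2)
      (by
        filter_upwards [g2 ((1 - 1 / (Real.log 2) ^ 2 / 2 * Pool.Agent.U746.LD.rate (1 / 150)) / 2)
          (by linarith)] with N hN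
        refine le_trans (le_of_eq ?_) hN.1
        congr 1
        ring)
    refine (h1.and_eventually hlogn).mono ?_
    rintro n ⟨k1, k3⟩
    unfold Pool.Agent.U746.LD.FL at k1
    rw [Set.mem_setOf_eq, ← a_eq] at k1
    rw [a₂_eq]
    refine lt_of_le_of_lt k1 ?_
    rw [C₂_mul, mul_div_assoc', div_lt_iff₀ (by linarith)]
    nlinarith
  · have h1 := Pool.Agent.U746.LD.io_of_num _ ω _
      (by linarith : (0 : ℝ) < (1 - 1 / (Real.log 2) ^ 2 / 2 * Pool.Agent.U746.LD.rate 2.66) / 2)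
      (by
        filter_upwards [g4 ((1 - 1 / (Real.log 2) ^ 2 / 2 * Pool.Agent.U746.LD.rate 2.66) / 2)
          (by linarith)] with N hN
        refine le_trans (le_of_eq ?_) hN.1
        congr 1
        ring)
    refine (h1.and_eventually hlogn).mono ?_
    rintro n ⟨k1, k3⟩
    unfold Pool.Agent.U746.LD.FG at k1
    rw [Set.mem_setOf_eq, ← a_eq] at k1
    rw [a₂_eq]
    refine lt_of_lt_of_le ?_ k1
    rw [C₂_mul, mul_div_assoc', lt_div_iff₀ (by linarith)]
    nlinarith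

end Pool.Agent.Results.MP_73869e_nt.CountsInRandomModels
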