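import Pool.Agent.U602.SQ.SmSq
import Pool.Agent.U602.MB.Fam
import Pool.Agent.U602.BE.Fam
import Pool.Agent.U602.ZK.Fam

set_option autoImplicit false

/-! # Record prime gaps around `n` and around `n²` for `n = ⌊f(k)⌋`, for instance `n = ⌊k ^ c⌋`

`L(x) = log x (log₂ x)² log₄ x / (log₃ x)²` is the size of the largest gaps between primes that are
known to occur. Let `f` be a real function, twice differentiable near infinity, with `f' ≥ 1` there and
`|f''(t)| = t ^ (c - 2 + o(1))`, `1 ≤ c < 2`; for instance `f(t) = γ t ^ c` with `γ > 0` and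
`1 < c < 2`, or `f(t) = t log t`. Consider the numbers `n = ⌊f(k)⌋`, `k ≤ X`.

Let `S` be one of the following functions with values in a finite abelian group `G`: (1) the tuple of
strongly additive functions in pairwise coprime bases (for instance the sums of digits of `k` in base
`2` modulo `m` and in base `3` modulo `m'`, `m'` odd); (2) the tuple of such functions at the terms
`⌊α_j k + β_j⌋` of Beatty sequences; (3) an additive function of the Zeckendorf expansion of `k`. For
every `ε > 0` there is `κ > 0` such that for all large `X` and all `g ∈ G` at least `X ^ (1 - ε)`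
integers `k ≤ X` have `S(k) = g` and no prime within `κ L(X)` of `n = ⌊f(k)⌋` or of `n²`. (The numbers
`n` are different for different large `k`.) With `G = 0` this is a statement on all the numbers
`n = ⌊f(k)⌋`, for instance on the Piatetski-Shapiro numbers `⌊k ^ c⌋`.

So the intervals `(n², n² + κ L(n)]` contain no prime for many `n` of this kind; the length
`(log n / log 2)²` of the question cannot be replaced by `κ L(n)`, even if `n` is restricted to such a
sequence.

Proof. `n ≡ 1` modulo the small and `n ≡ 0` modulo the medium primes; the surviving shifts of `n` and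
of `n²` are covered by large primes with the square sieve weight of the starting file `NumberAndSquare`
(project SQ of helper426 and others). The criterion `WellDistributedSets` needs the numbers `⌊f(k)⌋` to
be equidistributed modulo all small `q`; this is shown by the exponential sums
`∑ χ(S(k)) e(h f(k) / q)` in short blocks: in a block of length `X ^ ε₁` the function `h f / q` is linear
up to a negative power of `X`, and its slope `h f'(N) / q` is close to an integer for few blocks only.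
-/

namespace Pool.Agent.Results.MP_73869e_nt.SmoothSequences

open Filter

/-- `log x (log₂ x)² log₄ x / (log₃ x)²` -/
noncomputable def L (x : ℝ) : ℝ :=
  Real.log x * (Real.log (Real.log x)) ^ 2 * Real.log (Real.log (Real.log (Real.log x))) /
    (Real.log (Real.log (Real.log x))) ^ 2

/-- no prime lies within `t` of `n` or of `n²` -/
def Isolated (t : ℝ) (n : ℤ) : Prop :=
  ∀ q : ℕ, q.Prime → t < |(q : ℝ) - (n : ℝ)| ∧ t < |(q : ℝ) - (n : ℝ) ^ 2|

/-- for every `ε > 0` there is `κ > 0` such that for all large `X` and all `g` there are `X ^ (1 - ε)` or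
more integers `0 ≤ k ≤ X` with `S k = g` and no prime within `κ L(X)` of `n = ⌊f k⌋` or of `n²` -/
def OftenIsolated (f : ℝ → ℝ) {G : Type} (S : ℕ → G) : Prop :=
  ∀ ε : ℝ, 0 < ε → ∃ κ : ℝ, 0 < κ ∧ ∃ X₀ : ℝ, ∀ X : ℝ, X₀ ≤ X → ∀ g : G,
    X ^ (1 - ε) ≤ ({k : ℕ | (k : ℝ) ≤ X ∧ S k = g ∧ Isolated (κ * L X) ⌊f k⌋}.ncard : ℝ)

/-- `S` is strongly `b`-additive and no nontrivial character of `S n` is a function of `n mod (b - 1)` -/
def Additive (b : ℕ) {G : Type} [AddCommGroup G] (S : ℕ → G) : Prop :=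
  (∀ n d : ℕ, d < b → S (b * n + d) = S n + S d) ∧
    ∀ χ : AddChar G ℂ, χ (S 1) ^ (b - 1) = 1 → (∀ d < b, χ (S d) = χ (S 1) ^ d) → ∀ g : G, χ g = 1

/-- near infinity `f` is twice differentiable, `f' ≥ 1`, and `|f''(t)| = t ^ (c - 2 + o(1))` for some
`1 ≤ c < 2` -/
def Smooth (f : ℝ → ℝ) : Prop :=
  ∃ c : ℝ, 1 ≤ c ∧ c < 2 ∧
    (∀ᶠ t : ℝ in atTop, DifferentiableAt ℝ f t ∧ DifferentiableAt ℝ (deriv f) t ∧ 1 ≤ deriv f t) ∧
    ∀ σ : ℝ, 0 < σ → ∀ᶠ t : ℝ in atTop,
      t ^ (c - 2 - σ) ≤ |deriv (deriv f) t| ∧ |deriv (deriv f) t| ≤ t ^ (c - 2 + σ)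

lemma large_of_deriv {f : ℝ → ℝ}
    (h : ∀ᶠ t : ℝ in atTop, DifferentiableAt ℝ f t ∧ DifferentiableAt ℝ (deriv f) t ∧ 1 ≤ deriv f t) :
    ∀ᶠ t : ℝ in atTop, t ^ (1 / 2 : ℝ) ≤ f t := by
  obtain ⟨T, hT⟩ := eventually_atTop.1 h
  have h1 : ∀ t : ℝ, T ≤ t → t - T ≤ f t - f T := by
    intro t ht
    have h2 := Convex.mul_sub_le_image_sub_of_le_deriv (convex_Ici T) (f := f) (C := 1)
      (fun u hu => (hT u hu).1.continuousAt.continuousWithinAt)
      (fun u hu => by
        rw [interior_Ici] at hu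
        exact (hT u hu.le).1.differentiableWithinAt)
      (fun u hu => by
        rw [interior_Ici] at hu
        exact (hT u hu.le).2.2) T (Set.mem_Ici.2 le_rfl) t (Set.mem_Ici.2 ht) ht
    linarith
  have h3 : ∀ᶠ t : ℝ in atTop, t ^ (1 / 2 : ℝ) * 2 ≤ t := by
    filter_upwards [eventually_ge_atTop (4 : ℝ)] with t ht
    have h4 : t ^ (1 / 2 : ℝ) * t ^ (1 / 2 : ℝ) = t := by
      rw [← Real.rpow_add (by linarith)]
      norm_num
    have h5 : 2 ≤ t ^ (1 / 2 : ℝ) := by
      rw [← Real.sqrt_eq_rpow]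
      exact Real.le_sqrt_of_sq_le (by linarith)
    nlinarith
  filter_upwards [h3, eventually_ge_atTop T, eventually_ge_atTop (2 * |T - f T|),
    eventually_ge_atTop (0 : ℝ)] with t h3 h4 h5 h6
  have h7 := h1 t h4
  have h8 := le_abs_self (T - f T)
  linarith

lemma often_of_blocks {f : ℝ → ℝ} (hf : Smooth f) {G : Type} [AddCommGroup G] [Finite G] (S : ℕ → G)
    (hS : Pool.Agent.U602.AB.Blocks S) : OftenIsolated f S := by
  classical
  have : Fintype G := Fintype.ofFinite G
  obtain ⟨c, hc1, hc2, hf1, hf2⟩ := hf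
  intro ε hε
  obtain ⟨κ, hκ, h⟩ := Pool.Agent.U602.SQ.family_smooth_sq S hS 1 le_rfl 0 (fun _ => c)
    (fun _ => hc1) (fun _ => hc2) (Function.injective_of_subsingleton _) (fun _ => f)
    (fun _ => deriv f) (fun _ => deriv (deriv f))
    (fun _ => hf1.mono fun t ht => ht.1.hasDerivAt)
    (fun _ => hf1.mono fun t ht => ht.2.1.hasDerivAt) (fun _ => hf2) (1 / 2) (by norm_num)
    (fun _ => large_of_deriv hf1) (hf1.mono fun t ht => ht.2.2) ε hε
  obtain ⟨X₀, hX₀⟩ := eventually_atTop.1 h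
  refine ⟨κ, hκ, max X₀ 0, fun X hX g => ?_⟩
  have h1 := hX₀ X ((le_max_left _ _).trans hX) g
  have hX0 : 0 ≤ X := (le_max_right _ _).trans hX
  refine h1.trans (le_of_eq ?_)
  have hL : Pool.Agent.W147.PS.ff X = L X := rfl
  rw [hL, ← Set.ncard_coe_finset]
  congr 2
  ext n
  simp only [Finset.coe_filter, Finset.mem_range, Set.mem_ofPred_eq, Nat.lt_succ_iff,
    Nat.le_floor_iff hX0, Isolated]

theorem result (f : ℝ → ℝ) (hf : Smooth f) :
    -- (1) digits in several bases
    (∀ (m : ℕ) (b : Fin m → ℕ), 1 ≤ m → (∀ i, 2 ≤ b i) → (∀ i j, i ≠ j → (b i).Coprime (b j)) →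
      ∀ (G : Fin m → Type) [∀ i, AddCommGroup (G i)] [∀ i, Finite (G i)] (S : ∀ i, ℕ → G i),
        (∀ i, Additive (b i) (S i)) → OftenIsolated f (fun k => fun i => S i k)) ∧
    -- (2) digits of Beatty sequences
    (∀ (d : ℕ) (α β : Fin d → ℝ), 1 ≤ d → (∀ i, 0 < α i) →
      (∃ c₁ τ₁ : ℝ, 0 < c₁ ∧ 0 ≤ τ₁ ∧
        ∀ (H : ℕ) (h : Fin d → ℤ), h ≠ 0 → (∀ j, |h j| ≤ H) → ∀ m : ℤ,
          c₁ * (H : ℝ) ^ (-τ₁) ≤ |∑ j, (h j : ℝ) * α j - m|) →
      ∀ (s : ℕ) (φ : Fin s → Fin d) (b : Fin s → ℕ), 1 ≤ s → (∀ a, 2 ≤ b a) →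
        (∀ a a', a ≠ a' → φ a = φ a' → (b a).Coprime (b a')) →
        ∀ (G : Fin s → Type) [∀ a, AddCommGroup (G a)] [∀ a, Finite (G a)] (S : ∀ a, ℕ → G a),
          (∀ a, Additive (b a) (S a)) →
            OftenIsolated f (fun k => fun a => S a ⌊α (φ a) * k + β (φ a)⌋₊)) ∧
    -- (3) the Zeckendorf expansion
    (∀ (G : Type) [AddCommGroup G] [Finite G] (c : ℕ → G) (w : ℕ),
      (∀ k, AddSubgroup.closure {g : G | ∃ i, k ≤ i ∧ i < k + w ∧
        g = c (i + 2) - c (i + 1) - c i} = ⊤) →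
      OftenIsolated f (fun k => ((Nat.zeckendorf k).map c).sum)) := by
  classical
  refine ⟨?_, ?_, ?_⟩
  · intro m b hm hb hcop G _ _ S hS
    have : ∀ i, Fintype (G i) := fun i => Fintype.ofFinite (G i)
    have : Nonempty (Fin m) := ⟨⟨0, hm⟩⟩
    apply often_of_blocks hf
    have h := Pool.Agent.U602.MB.blocks_mb b hb hcop S (fun i => (hS i).1) (by
      rintro i χ hχ ⟨h1, h2⟩
      apply hχ
      ext g
      simpa using (hS i).2 χ h1 h2 g)
    convert h
  · rintro d α β hd hα ⟨c₁, τ₁, hc₁, hτ₁, hdio⟩ s φ b hs hb hcop G _ _ S hS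
    have : ∀ a, Fintype (G a) := fun a => Fintype.ofFinite (G a)
    have : Nonempty (Fin s) := ⟨⟨0, hs⟩⟩
    apply often_of_blocks hf
    have h := Pool.Agent.U602.BE.blocks_be hd φ b hb hcop S (fun i => (hS i).1) (by
      rintro a χ hχ ⟨h1, h2⟩
      apply hχ
      ext g
      simpa using (hS a).2 χ h1 h2 g) α β hα c₁ τ₁ hc₁ hτ₁ hdio
    convert h
  · intro G _ _ c w hgen
    have : Fintype G := Fintype.ofFinite G
    apply often_of_blocks hf
    exact Pool.Agent.U602.ZK.blocks_zk c w hgen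

end Pool.Agent.Results.MP_73869e_nt.SmoothSequences
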