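import Pool.Agent.U602.SQ.Fam
import Pool.Agent.U602.MB.Fam
import Pool.Agent.U602.BE.Fam
import Pool.Agent.U602.ZK.Fam

set_option autoImplicit false

/-! # Record prime gaps around `n` and around `n²`, with `n` in a well distributed set

`L(x) = log x (log₂ x)² log₄ x / (log₃ x)²` is the size of the largest gaps between primes that are
known to occur. The starting file `NumberAndSquare` shows that every interval `(M, M + Y]`, `M ≥ Y`,
contains an integer `n` without primes within `c L(Y)` of `n` and of `n²`. We show this for every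
well distributed set in place of the interval, and apply it to sets defined by digits.

(1) There is `c > 0` such that for all large `Y`: every nonempty finite set `𝒮` of integers larger than
`Y`, whose members are equidistributed modulo every `q ≤ Y` with relative error `1 / Y`, contains a
member `n` such that no prime lies within `c L(Y)` of `n` or of `n²`.

(2) Let `f` be one of the following functions with values in a finite abelian group `G`: (a) the tuple
of strongly additive functions in pairwise coprime bases (for instance the sums of digits of `n` in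
base `2` modulo `m` and in base `3` modulo `m'`, `m'` odd); (b) the tuple of such functions at the terms
`⌊α_j n + β_j⌋` of Beatty sequences; (c) an additive function of the Zeckendorf expansion. For every
`ε > 0` there is `κ > 0` such that for all large `X` and all `g ∈ G` at least `X ^ (1 - ε)` integers
`n ≤ X` with `f(n) = g` have no prime within `κ L(X)` of `n` or of `n²`.

So the intervals `(n², n² + κ L(n)]` contain no prime for many such `n`; the length
`(log n / log 2)²` of the question cannot be replaced by `κ L(n)`, even if `n` is restricted to one of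
these sets.

Proof. `n ≡ 1` modulo the small and `n ≡ 0` modulo the medium primes; the surviving shifts of `n` and
of `n²` are covered by large primes with the square sieve weight of `NumberAndSquare` (project SQ of
helper426 and others), whose covering theorem is put in a form with a relative error, so that the
interval can be replaced by `𝒮`. The sets in (2) are well distributed in short blocks since the
exponential sums with the characters of `f` save a power, uniformly in the frequency (`U602/MB`,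
`U602/BE`, `U602/ZK`). -/

namespace Pool.Agent.Results.MP_73869e_nt.WellDistributedSets

open Filter

/-- `log x (log₂ x)² log₄ x / (log₃ x)²` -/
noncomputable def L (x : ℝ) : ℝ :=
  Real.log x * (Real.log (Real.log x)) ^ 2 * Real.log (Real.log (Real.log (Real.log x))) /
    (Real.log (Real.log (Real.log x))) ^ 2

/-- no prime lies within `t` of `n` or of `n²` -/
def Isolated (t : ℝ) (n : ℤ) : Prop :=
  ∀ q : ℕ, q.Prime → t < |(q : ℝ) - (n : ℝ)| ∧ t < |(q : ℝ) - (n : ℝ) ^ 2|

/-- for every `ε > 0` there is `κ > 0` such that for all large `X` every value of `f` is attained at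
`X ^ (1 - ε)` or more integers `0 ≤ n ≤ X` without primes within `κ L(X)` of `n` or of `n²` -/
def OftenIsolated {G : Type} (f : ℕ → G) : Prop :=
  ∀ ε : ℝ, 0 < ε → ∃ κ : ℝ, 0 < κ ∧ ∃ X₀ : ℝ, ∀ X : ℝ, X₀ ≤ X → ∀ g : G,
    X ^ (1 - ε) ≤ ({n : ℕ | (n : ℝ) ≤ X ∧ f n = g ∧ Isolated (κ * L X) n}.ncard : ℝ)

/-- `S` is strongly `b`-additive and no nontrivial character of `S n` is a function of `n mod (b - 1)` -/
def Additive (b : ℕ) {G : Type} [AddCommGroup G] (S : ℕ → G) : Prop :=
  (∀ n d : ℕ, d < b → S (b * n + d) = S n + S d) ∧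
    ∀ χ : AddChar G ℂ, χ (S 1) ^ (b - 1) = 1 → (∀ d < b, χ (S d) = χ (S 1) ^ d) → ∀ g : G, χ g = 1

lemma often_of_blocks {G : Type} [AddCommGroup G] [Finite G] (f : ℕ → G)
    (hf : Pool.Agent.U602.AB.Blocks f) : OftenIsolated f := by
  classical
  have : Fintype G := Fintype.ofFinite G
  intro ε hε
  obtain ⟨κ, hκ, h⟩ := Pool.Agent.U602.SQ.family_sq f hf ε hε
  obtain ⟨X₀, hX₀⟩ := eventually_atTop.1 h
  refine ⟨κ, hκ, max X₀ 0, fun X hX g => ?_⟩
  have h1 := hX₀ X ((le_max_left _ _).trans hX) g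
  have hX0 : 0 ≤ X := (le_max_right _ _).trans hX
  refine h1.trans (le_of_eq ?_)
  have hL : Pool.Agent.W147.PS.ff X = L X := rfl
  rw [hL, ← Set.ncard_coe_finset]
  congr 2
  ext n
  simp only [Finset.coe_filter, Finset.mem_range, Set.mem_ofPred_eq, Nat.lt_succ_iff,
    Nat.le_floor_iff hX0]
  constructor
  · rintro ⟨h2, h3, h4⟩
    refine ⟨h2, h3, fun q hq => ?_⟩
    simpa using h4 q hq
  · rintro ⟨h2, h3, h4⟩
    refine ⟨h2, h3, fun q hq => ?_⟩
    simpa using h4 q hq

theorem result :
    -- (1) well distributed sets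
    (∃ c : ℝ, 0 < c ∧ ∃ Y₀ : ℝ, ∀ Y : ℝ, Y₀ ≤ Y → ∀ 𝒮 : Finset ℤ, 𝒮.Nonempty →
      (∀ a ∈ 𝒮, Y < (a : ℝ)) →
      (∀ q : ℕ, 1 ≤ q → (q : ℝ) ≤ Y → ∀ r : ℤ,
        |((𝒮.filter (fun a => (q : ℤ) ∣ a - r)).card : ℝ) - (𝒮.card : ℝ) / q| ≤ 𝒮.card / Y) →
      ∃ n ∈ 𝒮, Isolated (c * L Y) n) ∧
    -- (2a) digits in several bases
    (∀ (m : ℕ) (b : Fin m → ℕ), 1 ≤ m → (∀ i, 2 ≤ b i) → (∀ i j, i ≠ j → (b i).Coprime (b j)) →
      ∀ (G : Fin m → Type) [∀ i, AddCommGroup (G i)] [∀ i, Finite (G i)] (S : ∀ i, ℕ → G i),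
        (∀ i, Additive (b i) (S i)) → OftenIsolated (fun n => fun i => S i n)) ∧
    -- (2b) digits of Beatty sequences
    (∀ (d : ℕ) (α β : Fin d → ℝ), 1 ≤ d → (∀ i, 0 < α i) →
      (∃ c₁ τ₁ : ℝ, 0 < c₁ ∧ 0 ≤ τ₁ ∧
        ∀ (H : ℕ) (h : Fin d → ℤ), h ≠ 0 → (∀ j, |h j| ≤ H) → ∀ m : ℤ,
          c₁ * (H : ℝ) ^ (-τ₁) ≤ |∑ j, (h j : ℝ) * α j - m|) →
      ∀ (s : ℕ) (φ : Fin s → Fin d) (b : Fin s → ℕ), 1 ≤ s → (∀ a, 2 ≤ b a) →
        (∀ a a', a ≠ a' → φ a = φ a' → (b a).Coprime (b a')) →
        ∀ (G : Fin s → Type) [∀ a, AddCommGroup (G a)] [∀ a, Finite (G a)] (S : ∀ a, ℕ → G a),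
          (∀ a, Additive (b a) (S a)) →
            OftenIsolated (fun n => fun a => S a ⌊α (φ a) * n + β (φ a)⌋₊)) ∧
    -- (2c) the Zeckendorf expansion
    (∀ (G : Type) [AddCommGroup G] [Finite G] (c : ℕ → G) (w : ℕ),
      (∀ k, AddSubgroup.closure {g : G | ∃ i, k ≤ i ∧ i < k + w ∧
        g = c (i + 2) - c (i + 1) - c i} = ⊤) →
      OftenIsolated (fun n => ((Nat.zeckendorf n).map c).sum)) := by
  classical
  refine ⟨?_, ?_, ?_, ?_⟩
  · obtain ⟨c, hc, Y₀, h⟩ := Pool.Agent.U602.SQ.crit_sq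
    refine ⟨c, hc, Y₀, fun Y hY 𝒮 h1 h2 h3 => ?_⟩
    obtain ⟨m, hm, h4⟩ := h Y hY 𝒮 h1 h2 (fun q hq1 hq2 r => by
      have := h3 q hq1 hq2 r
      convert this)
    exact ⟨m, hm, h4⟩
  · intro m b hm hb hcop G _ _ S hS
    have : ∀ i, Fintype (G i) := fun i => Fintype.ofFinite (G i)
    have : Nonempty (Fin m) := ⟨⟨0, hm⟩⟩
    apply often_of_blocks
    have h := Pool.Agent.U602.MB.blocks_mb b hb hcop S (fun i => (hS i).1) (by
      rintro i χ hχ ⟨h1, h2⟩
      apply hχ
      ext g
      simpa using (hS i).2 χ h1 h2 g)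
    convert h
  · rintro d α β hd hα ⟨c₁, τ₁, hc₁, hτ₁, hdio⟩ s φ b hs hb hcop G _ _ S hS
    have : ∀ a, Fintype (G a) := fun a => Fintype.ofFinite (G a)
    have : Nonempty (Fin s) := ⟨⟨0, hs⟩⟩
    apply often_of_blocks
    have h := Pool.Agent.U602.BE.blocks_be hd φ b hb hcop S (fun i => (hS i).1) (by
      rintro a χ hχ ⟨h1, h2⟩
      apply hχ
      ext g
      simpa using (hS a).2 χ h1 h2 g) α β hα c₁ τ₁ hc₁ hτ₁ hdio
    convert h
  · intro G _ _ c w hgen
    have : Fintype G := Fintype.ofFinite G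
    apply often_of_blocks
    exact Pool.Agent.U602.ZK.blocks_zk c w hgen

end Pool.Agent.Results.MP_73869e_nt.WellDistributedSets
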